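import Pool.Agent.N988.EP.Stm

/-! # Project EP (helper988), leaf CUR (helper823): currying of product measures -/

set_option autoImplicit false

open MeasureTheory Set

namespace Pool.Agent.N823.EP

open Pool.Agent.N988.EA Pool.Agent.N988.EC Pool.Agent.N988.EP

/-- currying of finite products (compare `Pool.Agent.N80.EA.mp_curry`) -/
lemma map_curry {ι κ α : Type} [MeasurableSpace α] [Fintype ι] [Fintype κ]
    [I : Fintype (ι × κ)] (μ : Measure α) [IsProbabilityMeasure μ] :
    (Measure.pi fun _ : ι × κ => μ).map (fun (J : ι × κ → α) (a : ι) (c : κ) => J (a, c)) =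
      Measure.pi fun _ : ι => Measure.pi fun _ : κ => μ := by
  have h1 := Measure.infinitePi_map_curry (ι := ι) (κ := κ) (fun _ _ => μ)
  have h2 : (Measure.infinitePi fun _ : ι × κ => μ) = Measure.pi fun _ : ι × κ => μ :=
    Measure.infinitePi_eq_pi _
  have h3 : (Measure.infinitePi fun _ : κ => μ) = Measure.pi fun _ : κ => μ :=
    Measure.infinitePi_eq_pi _
  have h4 : (Measure.infinitePi fun _ : ι => Measure.pi fun _ : κ => μ) =
      Measure.pi fun _ : ι => Measure.pi fun _ : κ => μ := Measure.infinitePi_eq_pi _
  rw [h2] at h1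
  simp only [h3] at h1
  rw [h4] at h1
  exact h1

/-- reindexing of finite products -/
lemma map_reindex {ι κ α : Type} [Fintype ι] [Fintype κ] [MeasurableSpace α] (ν : Measure α)
    [IsProbabilityMeasure ν] (f : κ ≃ ι) :
    (Measure.pi fun _ : ι => ν).map (fun (w : ι → α) (k : κ) => w (f k)) =
      Measure.pi fun _ : κ => ν := by
  symm
  refine Measure.pi_eq fun s hs => ?_
  have hm : Measurable (fun (w : ι → α) (k : κ) => w (f k)) :=
    measurable_pi_lambda _ fun k => measurable_pi_apply _
  rw [Measure.map_apply hm (MeasurableSet.univ_pi hs)]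
  have h1 : (fun (w : ι → α) (k : κ) => w (f k)) ⁻¹' (Set.pi univ s) =
      Set.pi univ fun i => s (f.symm i) := by
    ext w
    simp only [mem_preimage, mem_pi, mem_univ, forall_const]
    constructor
    · intro h i
      have := h (f.symm i)
      rwa [Equiv.apply_symm_apply] at this
    · intro h k
      have := h (f k)
      rwa [Equiv.symm_apply_apply] at this
  rw [h1, Measure.pi_pi]
  exact Fintype.prod_equiv f.symm _ _ fun i => rfl

/-- P1 -/
theorem t_CUR : S_CUR := by
  intro b n α _ ν _
  let f : (Fin b × Bool) × Edge b n ≃ Edge b (n + 1) := Equiv.prodAssoc (Fin b) Bool (Edge b n)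
  have h1 := map_reindex ν f
  have h2 := map_curry (ι := Fin b × Bool) (κ := Edge b n) ν
  unfold iid
  rw [← h2, ← h1, Measure.map_map]
  · rfl
  · exact measurable_pi_lambda _ fun a => measurable_pi_lambda _ fun c => measurable_pi_apply _
  · exact measurable_pi_lambda _ fun k => measurable_pi_apply _

end Pool.Agent.N823.EP
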