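import Pool.Agent.N86.SQ.Clo3
import Pool.Agent.N86.SQ.LineRate
import Pool.Agent.TH671.DU.Dich

/-!
# The number of lines through a point: explicit bounds and the gap
-/

set_option autoImplicit false
set_option linter.unusedSectionVars false

namespace Pool.Agent.N823

open scoped TensorProduct PowerSeries Topology
open Pool.Agent.H826R3.SM Pool.Agent.TH671.DU Pool.Agent.N86.SQ
open Filter

variable {k : Type} [Field k]

/-- The `d`-th power of the maximal ideal of a local algebra of dimension `d` vanishes. -/
theorem maximalIdeal_pow_finrank (A : Type) [CommRing A] [Algebra k A] [Module.Finite k A]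
    [IsLocalRing A] : IsLocalRing.maximalIdeal A ^ Module.finrank k A = ⊥ := by
  set M : Ideal A := IsLocalRing.maximalIdeal A with hM
  have hart : IsArtinianRing A := IsArtinianRing.of_finite k A
  have hnoeth : IsNoetherianRing A := inferInstance
  have key : ∀ i : ℕ, M ^ i = ⊥ ∨
      Module.finrank k ((M ^ i).restrictScalars k) + i ≤ Module.finrank k A := by
    intro i
    induction i with
    | zero =>
      right
      rw [add_zero]
      exact Submodule.finrank_le _
    | succ i ih =>
      rcases ih with h | h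
      · left
        rw [pow_succ, h]
        simp
      · by_cases h0 : M ^ (i + 1) = ⊥
        · exact Or.inl h0
        · right
          have hlt : M ^ (i + 1) < M ^ i := by
            refine lt_of_le_of_ne (Ideal.pow_le_pow_right (Nat.le_succ i)) fun h1 => ?_
            refine h0 ?_
            rw [h1]
            refine Submodule.eq_bot_of_le_smul_of_le_jacobson_bot M (M ^ i)
              ((isNoetherianRing_iff_ideal_fg A).1 hnoeth _) ?_ ?_
            · rw [smul_eq_mul, ← pow_succ', h1]
            · exact IsLocalRing.maximalIdeal_le_jacobson ⊥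
          have h2 : Module.finrank k ((M ^ (i + 1)).restrictScalars k) <
              Module.finrank k ((M ^ i).restrictScalars k) := by
            refine Submodule.finrank_lt_finrank_of_lt ?_
            exact hlt
          omega
  rcases key (Module.finrank k A) with h | h
  · exact h
  · have h1 : Module.finrank k ((M ^ Module.finrank k A).restrictScalars k) = 0 := by omega
    have h2 := Submodule.finrank_eq_zero.1 h1
    exact (Submodule.restrictScalars_eq_bot_iff k A A).1 h2

variable [IsAlgClosed k]

section

variable (A : Type) [CommRing A] [Algebra k A] [Module.Finite k A] [IsLocalRing A]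

theorem mdeg_le_lines (n : ℕ) : mdeg k (Pow k A n) ≤
    (Module.finrank k A * n + 2) * lineNumber k (Pow k A n) := by
  obtain ⟨aug, l, a, e, hgen, hnil⟩ := local_gens (k := k) A
  have hpos : 0 < Module.finrank k A := Module.finrank_pos
  obtain ⟨e', he'⟩ : ∃ e', Module.finrank k A = e' + 1 := ⟨Module.finrank k A - 1, by omega⟩
  have h1 : Ideal.span (Set.range a) ≤ IsLocalRing.maximalIdeal A := by
    rw [Ideal.span_le]
    rintro _ ⟨i, rfl⟩
    have h2 := isNilpotent_gen a hnil i
    rw [SetLike.mem_coe, IsLocalRing.mem_maximalIdeal, mem_nonunits_iff]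
    intro hu
    obtain ⟨m, hm⟩ := h2
    have h3 := hu.pow m
    rw [hm] at h3
    exact not_isUnit_zero h3
  have h2 : Ideal.span (Set.range a) ^ (e' + 1) = ⊥ := by
    rw [eq_bot_iff, ← he', ← maximalIdeal_pow_finrank (k := k) A]
    exact Ideal.pow_right_mono h1 _
  rw [mul_comm, he']
  exact TH671.DU.mdeg_le (fam_pow_of_lines hgen h2 (inLines_lineNumber A n))

theorem defect_le_lines (n : ℕ) : Module.finrank k A ^ n + defect k (Pow k A n) ≤
    (Module.finrank k A * n + 2) * lineNumber k (Pow k A n) := by
  have h := mdeg_le_lines (k := k) A n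
  rwa [← fadd, finrank_Pow'] at h

/-- the upper bound of Q1 with lines -/
theorem exists_lines_lt (hQ : QOne k A) (ε : ℝ) (hε : 0 < ε) : ∃ n : ℕ, 1 ≤ n ∧
    ((Module.finrank k A : ℝ) * n + 2) * lineNumber k (Pow k A n) <
      ((Module.finrank k A : ℝ) + ε) ^ n := by
  have hr : rate k A = Module.finrank k A := (qOne_iff_rate A).1 hQ
  set d : ℝ := (Module.finrank k A : ℝ) with hd
  have hd1 : (1 : ℝ) ≤ d := by
    rw [hd]
    exact_mod_cast (Module.finrank_pos (R := k) (M := A))
  obtain ⟨C, hC, hG⟩ := lineNumber_growth (k := k) A (ε / 2) (by linarith)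
  rw [hr] at hG
  have hlt : (d + ε / 2) / (d + ε) < 1 := (div_lt_one (by linarith)).2 (by linarith)
  have hpos : 0 ≤ (d + ε / 2) / (d + ε) := by positivity
  -- `(d n + 2) C q^n → 0`
  have ht : Tendsto (fun n : ℕ => (d * n + 2) * C * ((d + ε / 2) / (d + ε)) ^ n) atTop (𝓝 0) := by
    have h1 := tendsto_self_mul_const_pow_of_lt_one hpos hlt
    have h2 := tendsto_pow_atTop_nhds_zero_of_lt_one hpos hlt
    have h3 := ((h1.const_mul (d * C)).add (h2.const_mul (2 * C)))
    rw [mul_zero, mul_zero, add_zero] at h3
    refine h3.congr fun n => ?_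
    ring
  obtain ⟨n, hn1, hn⟩ := ((ht.eventually_lt_const one_pos).and (eventually_ge_atTop 1)).exists
  refine ⟨n, hn, ?_⟩
  have hdn : (0 : ℝ) ≤ d * n + 2 := by positivity
  have hx : 0 < (d + ε) ^ n := by positivity
  calc (d * n + 2) * lineNumber k (Pow k A n) ≤ (d * n + 2) * (C * (d + ε / 2) ^ n) :=
        mul_le_mul_of_nonneg_left (hG n) hdn
    _ = ((d * n + 2) * C * ((d + ε / 2) / (d + ε)) ^ n) * (d + ε) ^ n := by
        rw [div_pow]
        field_simp
    _ < 1 * (d + ε) ^ n := mul_lt_mul_of_pos_right hn1 hx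
    _ = (d + ε) ^ n := one_mul _

end

/-- one gap for all local schemes of degree `d` -/
theorem line_gap (d : ℕ) : ∃ ε : ℝ, 0 < ε ∧ ∀ (A : Type) [CommRing A] [Algebra k A]
    [Module.Finite k A] [IsLocalRing A], Module.finrank k A = d →
      (QOne k A ↔ ∃ n : ℕ, 1 ≤ n ∧
        ((d : ℝ) * n + 2) * lineNumber k (Pow k A n) < ((d : ℝ) + ε) ^ n) := by
  obtain ⟨ε, hε, h⟩ := gap (k := k) d
  refine ⟨ε, hε, ?_⟩
  intro A _ _ _ _ hd
  constructor
  · intro hQ
    have := exists_lines_lt (k := k) A hQ ε hε
    rwa [hd] at this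
  · rintro ⟨n, hn, hlt⟩
    rw [h A hd]
    refine ⟨n, hn, lt_of_le_of_lt ?_ hlt⟩
    have := defect_le_lines (k := k) A n
    rw [hd] at this
    exact_mod_cast this

/-- the growth rate is at most `((d n + 2) ℓ_n)^{1/n}` -/
theorem rate_pow_le_lines (A : Type) [CommRing A] [Algebra k A] [Module.Finite k A]
    [IsLocalRing A] (n : ℕ) : rate k A ^ n ≤
      ((Module.finrank k A : ℝ) * n + 2) * lineNumber k (Pow k A n) := by
  refine (rate_pow_le A n).trans ?_
  exact_mod_cast mdeg_le_lines (k := k) A n

end Pool.Agent.N823
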