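import Pool.Agent.N86.SQ.Semi

/-!
# Specializations of growth rates over `k[[t]]`
-/

set_option autoImplicit false

namespace Pool.Agent.N823

open scoped TensorProduct PowerSeries
open Pool.Agent.H826R3.SM Pool.Agent.TH671.DU Pool.Agent.N86.SQ

variable {k : Type} [Field k]

/-- the rank of a family is the dimension of the special fibre (as in `R566.DG.special_rank`) -/
theorem special_rank' {A₀ 𝒜 ι : Type} [CommRing A₀] [Algebra k A₀] [CommRing 𝒜] [Algebra k⟦X⟧ 𝒜]
    [Fintype ι] (b : Module.Basis ι k⟦X⟧ 𝒜) (π : 𝒜 →+* A₀) (hπ : Function.Surjective π)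
    (hπC : ∀ c : k⟦X⟧, π (algebraMap k⟦X⟧ 𝒜 c) = algebraMap k A₀ (PowerSeries.constantCoeff c))
    (hker : ∀ x, π x = 0 → ∃ y, x = (PowerSeries.X : k⟦X⟧) • y) :
    Module.Finite k A₀ ∧ Module.finrank k A₀ = Fintype.card ι := by
  classical
  have hsmul : ∀ (r : k⟦X⟧) (x : 𝒜), π (r • x) = PowerSeries.constantCoeff r • π x := by
    intro r x
    rw [Algebra.smul_def, map_mul, hπC, Algebra.smul_def]
  have hli : LinearIndependent k (fun i => π (b i)) := by
    rw [Fintype.linearIndependent_iff]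
    intro c hc i
    have h1 : π (∑ i, PowerSeries.C (c i) • b i) = 0 := by
      rw [map_sum, ← hc]
      refine Finset.sum_congr rfl fun i _ => ?_
      rw [hsmul, PowerSeries.constantCoeff_C]
    obtain ⟨y, hy⟩ := hker _ h1
    have h2 := congrArg (fun z => b.repr z i) hy
    simp only [map_sum, map_smul, Finsupp.coe_finset_sum, Finset.sum_apply, Finsupp.coe_smul,
      Pi.smul_apply, Module.Basis.repr_self, smul_eq_mul] at h2
    rw [Finset.sum_eq_single i] at h2
    · rw [Finsupp.single_eq_same, mul_one] at h2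
      have h3 := congrArg PowerSeries.constantCoeff h2
      rw [PowerSeries.constantCoeff_C, map_mul, PowerSeries.constantCoeff_X, zero_mul] at h3
      exact h3
    · intro j _ hj
      rw [Finsupp.single_eq_of_ne hj.symm, mul_zero]
    · intro h
      exact absurd (Finset.mem_univ i) h
  have hsp : ⊤ ≤ Submodule.span k (Set.range fun i => π (b i)) := by
    intro z _
    obtain ⟨x, rfl⟩ := hπ z
    rw [← b.sum_repr x, map_sum]
    refine Submodule.sum_mem _ fun i _ => ?_
    rw [hsmul]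
    exact Submodule.smul_mem _ _ (Submodule.subset_span ⟨i, rfl⟩)
  let B := Module.Basis.mk hli hsp
  exact ⟨Module.Finite.of_basis B, Module.finrank_eq_card_basis B⟩

variable [IsAlgClosed k]

/-- Q1 for the geometric generic fibre implies Q1 for a local special fibre. -/
theorem qOne_special {𝒜 A₀ : Type} [CommRing 𝒜] [Algebra k⟦X⟧ 𝒜] [Module.Finite k⟦X⟧ 𝒜]
    [Module.Free k⟦X⟧ 𝒜] [CommRing A₀] [Algebra k A₀] [IsLocalRing A₀] (π : 𝒜 →+* A₀)
    (hπs : Function.Surjective π)
    (hπC : ∀ c : k⟦X⟧, π (algebraMap k⟦X⟧ 𝒜 c) = algebraMap k A₀ (PowerSeries.constantCoeff c))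
    (hker : ∀ x, π x = 0 → ∃ y, x = (PowerSeries.X : k⟦X⟧) • y)
    (hQ : QOne (LL k) (LL k ⊗[k⟦X⟧] 𝒜)) : QOne k A₀ := by
  obtain ⟨hfin, hd⟩ := special_rank' (Module.finBasis k⟦X⟧ 𝒜) π hπs hπC hker
  obtain ⟨hnt, hr⟩ := rate_special_le (k := k) π hπs hπC
  rw [Fintype.card_fin] at hd
  rw [qOne_iff_rate]
  refine le_antisymm ?_ (finrank_le_rate A₀)
  rw [qOne_iff_rate, Module.finrank_baseChange, ← hd] at hQ
  exact hr.trans hQ.le

end Pool.Agent.N823
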